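import Pool.Agent.E8helper39.WW.Stm

/-!
Project WW (MP_a50277_co, poster helper39): the recursion STEP.
-/

set_option autoImplicit false

open Module Submodule

namespace Pool.Agent.E8helper49.WW

open WW39

theorem t_STEP (h1 : S_NC1) (h2 : S_NC2) (hGP : S_GP) (hF : S_FIRST) : S_STEP := by
  intro V _ _ _ E hfin hspan hne hsimp hNS p h q sp hnonempty
  obtain ⟨A, hA⟩ : ∃ A, A = E ∩ {e | h e = 0} := ⟨_, rfl⟩
  rw [← hA] at hnonempty ⊢
  have hAE : A ⊆ E := by rw [hA]; exact Set.inter_subset_left
  have hAfin : A.Finite := hfin.subset hAE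
  have hA0 : ∀ e ∈ A, h e = 0 := by
    intro e he
    rw [hA] at he
    exact he.2
  have hmemA : ∀ e ∈ E, h e = 0 → e ∈ A := by
    intro e he h0
    rw [hA]
    exact ⟨he, h0⟩
  obtain ⟨G, hG⟩ : ∃ G, G = NC A := ⟨_, rfl⟩
  rw [← hG] at hnonempty ⊢
  have hGA : G ⊆ A := by rw [hG]; exact fun e he => he.1
  have hGfin := hAfin.subset hGA
  obtain ⟨D, hD⟩ : ∃ D, D = A \ G := ⟨_, rfl⟩
  have hDA : D ⊆ A := by rw [hD]; exact Set.sdiff_subset
  obtain ⟨n1, n2, n3⟩ := h1 V A hAfin
  rw [← hG] at n1 n2 n3
  rw [← hD] at n1 n2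
  have hconn : Conn G := by rw [hG]; exact h2 V E A hfin hNS hAE
  have hspanA : ∀ x, h x = 0 → x ∈ span ℝ A := by
    intro x hx
    have := sp.cut.2 x (by rw [hspan]; trivial) hx
    rwa [← hA] at this
  have hAsup : span ℝ A = span ℝ G ⊔ span ℝ D := by
    rw [← span_union, hD, Set.union_sdiff_cancel hGA]
  have hker : ∀ x ∈ span ℝ A, h x = 0 := by
    intro x hx
    have : span ℝ A ≤ LinearMap.ker h := span_le.2 (fun e he => hA0 e he)
    exact this hx
  obtain ⟨U, hU⟩ : ∃ U, U = span ℝ D ⊔ span ℝ {p} := ⟨_, rfl⟩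
  have hcompl : IsCompl (span ℝ G) U := by
    constructor
    · rw [disjoint_def]
      intro x hxG hxU
      rw [hU, mem_sup] at hxU
      obtain ⟨d, hd, c, hc, rfl⟩ := hxU
      rw [mem_span_singleton] at hc
      obtain ⟨c, rfl⟩ := hc
      have e1 := hker _ (span_mono hGA hxG)
      have e2 := hker _ (span_mono hDA hd)
      rw [map_add, e2, zero_add, map_smul, smul_eq_mul] at e1
      have e3 : c = 0 := (mul_eq_zero.1 e1).resolve_right sp.hp.ne
      rw [e3, zero_smul, add_zero] at hxG ⊢
      exact disjoint_def.1 n1 d hxG hd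
    · rw [codisjoint_iff, eq_top_iff]
      intro v _
      have e1 : v - (h v / h p) • p ∈ span ℝ A := hspanA _ (by
        rw [map_sub, map_smul, smul_eq_mul, div_mul_cancel₀ _ sp.hp.ne, sub_self])
      rw [hAsup, mem_sup] at e1
      obtain ⟨g, hg, d, hd, e⟩ := e1
      rw [mem_sup]
      refine ⟨g, hg, d + (h v / h p) • p, ?_, ?_⟩
      · rw [hU]
        exact add_mem_sup hd (smul_mem _ _ (mem_span_singleton_self p))
      · rw [← add_assoc, e, sub_add_cancel]
  obtain ⟨P, hP1, hP2, hP3⟩ : ∃ P : V →ₗ[ℝ] V, (∀ x, P x ∈ span ℝ G) ∧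
      (∀ x ∈ span ℝ G, P x = x) ∧ (∀ x, P x = 0 ↔ x ∈ U) :=
    ⟨(span ℝ G).projection U hcompl, fun x => projection_apply_mem hcompl x,
      fun x hx => projection_apply_of_mem_left hcompl hx,
      fun x => projection_apply_eq_zero_iff hcompl⟩
  have hP5 : ∀ x, x - P x ∈ U := by
    intro x
    rw [← hP3, map_sub, hP2 _ (hP1 x), sub_self]
  have hDU : ∀ d ∈ span ℝ D, d ∈ U := fun d hd => by rw [hU]; exact mem_sup_left hd
  have hpU : p ∈ U := by rw [hU]; exact mem_sup_right (mem_span_singleton_self p)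
  have hPp : P p = 0 := (hP3 p).2 hpU
  have hGs : ∀ e ∈ G, e ∈ span ℝ G := fun e he => subset_span he
  have hPA : ∀ x ∈ span ℝ A, x - P x ∈ span ℝ D := by
    intro x hx
    rw [hAsup, mem_sup] at hx
    obtain ⟨g, hg, d, hd, rfl⟩ := hx
    rw [map_add, hP2 g hg, (hP3 d).2 (hDU d hd), add_zero, add_sub_cancel_left]
    exact hd
  -- the functionals `γ ∘ P`
  have hcutA : ∀ γ : Dual ℝ V, Cut G γ → Cut A (γ ∘ₗ P) := by
    intro γ hγ
    refine ⟨?_, fun x hx h0 => ?_⟩
    · obtain ⟨e, he, h3⟩ := hγ.1
      exact ⟨e, hGA he, by rw [LinearMap.comp_apply, hP2 e (hGs e he)]; exact h3⟩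
    · have e1 : P x ∈ span ℝ (G ∩ {e | γ e = 0}) := hγ.2 _ (hP1 x) h0
      have e2 : P x ∈ span ℝ (A ∩ {e | (γ ∘ₗ P) e = 0}) := by
        refine span_mono ?_ e1
        rintro e ⟨he, h4⟩
        refine ⟨hGA he, ?_⟩
        show γ (P e) = 0
        rw [hP2 e (hGs e he)]
        exact h4
      have e3 : x - P x ∈ span ℝ (A ∩ {e | (γ ∘ₗ P) e = 0}) := by
        refine span_mono ?_ (hPA x hx)
        intro d hd
        refine ⟨hDA hd, ?_⟩
        show γ (P d) = 0
        rw [(hP3 d).2 (hDU d (subset_span hd)), map_zero]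
      have := add_mem e2 e3
      rwa [add_sub_cancel] at this
  have hgen : Gen G (P q) := by
    intro γ hγ
    have e1 := hcutA γ hγ
    rw [hA] at e1
    exact sp.gen (γ ∘ₗ P) (by rw [LinearMap.comp_apply, hPp, map_zero]) e1
  have hst : ∀ γ : Dual ℝ V, Cut G γ → 0 < γ (P q) → ∀ e ∈ E, 0 ≤ h e * γ (P e) := by
    intro γ hγ h3 e he
    have e1 := hcutA γ hγ
    rw [hA] at e1
    exact sp.st (γ ∘ₗ P) (by rw [LinearMap.comp_apply, hPp, map_zero]) e1 h3 e he
  have hbot : span ℝ G ≠ ⊥ := by
    obtain ⟨e, he⟩ := hnonempty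
    intro h0
    have e1 := hGs e he
    rw [h0, mem_bot] at e1
    exact hne e (hAE (hGA he)) e1
  obtain ⟨f0, hf1, hf2, hf3⟩ := hGP V G (P q) hGfin hconn (hP1 q) hgen hbot
  obtain ⟨z0, hz0, hfz0⟩ := hf1.1
  obtain ⟨z, hz, hfz⟩ : ∃ z, (z ∈ G ∨ -z ∈ G) ∧ f0 z < 0 := by
    rcases lt_or_gt_of_ne hfz0 with h3 | h3
    · exact ⟨z0, Or.inl hz0, h3⟩
    · exact ⟨-z0, Or.inr (by rw [neg_neg]; exact hz0), by rw [map_neg]; linarith⟩
  obtain ⟨f, ⟨k1, k2, k3⟩, -, sf⟩ := hF V G z (P q)
    (fun f => Cut G f ∧ 0 < f (P q) ∧ ∀ x ∈ span ℝ G, InCl G (P q) x → f x = 0 → x = 0)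
    hGfin hz (hP1 q) hgen (by
      rintro f g a b ha hb ⟨c1, c2, c3⟩ hg hgq hc
      refine ⟨hc, ?_, fun x hx hcl h0 => ?_⟩
      · simp only [LinearMap.add_apply, LinearMap.smul_apply, smul_eq_mul]
        positivity
      · have e1 := hcl f c1 c2
        have e2 := hcl g hg hgq
        simp only [LinearMap.add_apply, LinearMap.smul_apply, smul_eq_mul] at h0
        have e3 : 0 ≤ a * f x := mul_nonneg ha.le e1
        have e4 : 0 ≤ b * g x := mul_nonneg hb.le e2
        have e5 : a * f x = 0 := by linarith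
        exact c3 x hx hcl ((mul_eq_zero.1 e5).resolve_left ha.ne'))
    ⟨f0, ⟨hf1, hf2, hf3⟩, hf1, hf2, hfz⟩
  obtain ⟨q1, hq1⟩ : ∃ q1, q1 = P q - (f (P q) / f z) • z := ⟨_, rfl⟩
  rw [← hq1] at sf
  have hzG : z ∈ span ℝ G := by
    rcases hz with h3 | h3
    · exact hGs z h3
    · have := neg_mem (hGs _ h3)
      rwa [neg_neg] at this
  have hzE : z ∈ E ∨ -z ∈ E := hz.imp (fun h3 => hAE (hGA h3)) (fun h3 => hAE (hGA h3))
  have hfzz : f z < 0 := sf.hp
  have hq1G : q1 ∈ span ℝ G := by
    rw [hq1]
    exact sub_mem (hP1 q) (smul_mem _ _ hzG)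
  obtain ⟨h', hh'⟩ : ∃ h' : Dual ℝ V, h' = f ∘ₗ P := ⟨_, rfl⟩
  have hh : ∀ x, h' x = f (P x) := fun x => by rw [hh']; rfl
  have hhG : ∀ x ∈ span ℝ G, h' x = f x := fun x hx => by rw [hh, hP2 x hx]
  have hhU : ∀ x ∈ U, h' x = 0 := fun x hx => by rw [hh, (hP3 x).2 hx, map_zero]
  -- the element `± p` of `E`
  obtain ⟨pe, hpe, hpe'⟩ : ∃ pe ∈ E, pe = p ∨ pe = -p := by
    rcases sp.mem with h3 | h3
    · exact ⟨p, h3, Or.inl rfl⟩
    · exact ⟨-p, h3, Or.inr rfl⟩
  have hpeU : pe ∈ U := by
    rcases hpe' with h3 | h3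
    · rw [h3]; exact hpU
    · rw [h3]; exact neg_mem hpU
  have hpe0 : h pe ≠ 0 := by
    rcases hpe' with h3 | h3
    · rw [h3]; exact sp.hp.ne
    · rw [h3, map_neg]; exact neg_ne_zero.2 sp.hp.ne
  have hpspan : p ∈ span ℝ {pe} := by
    rw [mem_span_singleton]
    rcases hpe' with h3 | h3
    · exact ⟨1, by rw [h3, one_smul]⟩
    · exact ⟨-1, by rw [h3, neg_one_smul, neg_neg]⟩
  -- no element outside `h = 0` except `± p` lies on `h' = 0`
  have hother : ∀ e ∈ E, h e ≠ 0 → h' e = 0 → e = pe := by
    intro e he h3 h4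
    by_contra hepe
    have e1 : InCl G (P q) (h e • P e) := by
      intro γ hγ hγq
      rw [map_smul, smul_eq_mul]
      exact hst γ hγ hγq e he
    have e2 := k3 _ (smul_mem _ _ (hP1 e)) e1 (by rw [map_smul, ← hh, h4, smul_zero])
    have e3 : P e = 0 := (smul_eq_zero.1 e2).resolve_left h3
    have e4 : e ∈ U := (hP3 e).1 e3
    have e5 : U ≤ span ℝ (insert pe D) := by
      rw [hU, sup_le_iff]
      refine ⟨span_mono (Set.subset_insert _ _), ?_⟩
      rw [span_le, Set.singleton_subset_iff]
      exact span_mono (Set.singleton_subset_iff.2 (Set.mem_insert _ _)) hpspan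
    have e6 : span ℝ (insert e (insert pe D)) ≤ U := by
      rw [span_le]
      intro x hx
      rcases hx with rfl | rfl | hx
      · exact e4
      · exact hpeU
      · exact hDU x (subset_span hx)
    have heD : e ∉ D := fun h5 => h3 (hA0 e (hDA h5))
    rcases hNS G (fun x hx => hAE (hGA hx)) (insert e (insert pe D)) (by
      intro x hx
      rcases hx with rfl | rfl | hx
      · exact he
      · exact hpe
      · exact hAE (hDA hx)) (hcompl.disjoint.mono_right e6) with h5 | h5
    · obtain ⟨g, hg⟩ := hnonempty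
      have e7 := (linearIndepOn_iff_notMem_span.1 h5) g hg
      rw [Set.image_id] at e7
      exact e7 (n3 g hg)
    · have e7 : e ∉ insert pe D := by
        rintro (h6 | h6)
        · exact hepe h6
        · exact heD h6
      have e8 := (linearIndepOn_iff_notMem_span.1 h5) e (Set.mem_insert _ _)
      rw [Set.image_id, Set.insert_sdiff_of_mem _ (Set.mem_singleton e),
        Set.sdiff_singleton_eq_self e7] at e8
      exact e8 (e5 e4)
  -- the new hyperplane
  obtain ⟨A', hA'⟩ : ∃ A', A' = E ∩ {e | h' e = 0} := ⟨_, rfl⟩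
  have hDE : D ⊆ E := fun d hd => hAE (hDA hd)
  have hGE : G ⊆ E := fun d hd => hAE (hGA hd)
  have hDA' : D ⊆ A' := by
    intro d hd
    rw [hA']
    exact ⟨hDE hd, hhU d (hDU d (subset_span hd))⟩
  have hpeA' : pe ∈ A' := by
    rw [hA']
    exact ⟨hpe, hhU pe hpeU⟩
  have hA'cases : ∀ e ∈ A', (e ∈ G ∧ f e = 0) ∨ e ∈ D ∨ e = pe := by
    intro e he
    rw [hA'] at he
    obtain ⟨he1, he2⟩ := he
    by_cases h3 : h e = 0
    · have h4 := hmemA e he1 h3
      by_cases h5 : e ∈ G
      · left
        refine ⟨h5, ?_⟩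
        rw [← hhG e (hGs e h5)]
        exact he2
      · right; left
        rw [hD]
        exact ⟨h4, h5⟩
    · right; right
      exact hother e he1 h3 he2
  have hGA' : ∀ e ∈ G, f e = 0 → e ∈ A' := by
    intro e he h3
    rw [hA']
    exact ⟨hGE he, by show h' e = 0; rw [hhG e (hGs e he)]; exact h3⟩
  have hUspan : ∀ B : Set V, D ⊆ B → pe ∈ B → U ≤ span ℝ B := by
    intro B hDB hpB
    rw [hU, sup_le_iff]
    refine ⟨span_mono hDB, ?_⟩
    rw [span_le, Set.singleton_subset_iff]
    exact span_mono (Set.singleton_subset_iff.2 hpB) hpspan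
  have hcut' : Cut E h' := by
    refine ⟨?_, fun x _ h0 => ?_⟩
    · obtain ⟨e, he, h3⟩ := k1.1
      exact ⟨e, hGE he, by rw [hhG e (hGs e he)]; exact h3⟩
    · have e1 : P x ∈ span ℝ (G ∩ {e | f e = 0}) := k1.2 _ (hP1 x) (by rw [← hh]; exact h0)
      have e2 : P x ∈ span ℝ (E ∩ {e | h' e = 0}) := by
        refine span_mono ?_ e1
        rintro e ⟨he, h4⟩
        refine ⟨hGE he, ?_⟩
        show h' e = 0
        rw [hhG e (hGs e he)]
        exact h4
      have e3 : x - P x ∈ span ℝ (E ∩ {e | h' e = 0}) := by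
        rw [← hA']
        exact hUspan A' hDA' hpeA' (hP5 x)
      have := add_mem e2 e3
      rwa [add_sub_cancel] at this
  -- an element of `D` is a coloop of `A'`
  have hDcol : ∀ d ∈ D, d ∉ span ℝ (A' \ {d}) := by
    intro d hd hmem
    have e1 : span ℝ (A' \ {d}) ≤ span ℝ (A \ {d}) ⊔ span ℝ {pe} := by
      rw [span_le]
      rintro e ⟨he, hed⟩
      rcases hA'cases e he with ⟨h3, -⟩ | h3 | h3
      · exact mem_sup_left (subset_span ⟨hGA h3, hed⟩)
      · exact mem_sup_left (subset_span ⟨hDA h3, hed⟩)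
      · rw [h3]
        exact mem_sup_right (mem_span_singleton_self pe)
    have e2 := e1 hmem
    rw [mem_sup] at e2
    obtain ⟨y, hy, w, hw, hyw⟩ := e2
    rw [mem_span_singleton] at hw
    obtain ⟨c, rfl⟩ := hw
    have e3 : h y = 0 := hker y (span_mono Set.sdiff_subset hy)
    have e4 : h d = 0 := hA0 d (hDA hd)
    have e5 : c = 0 := by
      rw [← hyw, map_add, e3, zero_add, map_smul, smul_eq_mul] at e4
      exact (mul_eq_zero.1 e4).resolve_right hpe0
    rw [e5, zero_smul, add_zero] at hyw
    rw [hyw] at hy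
    have e6 : d ∈ NC A := ⟨hDA hd, hy⟩
    rw [← hG] at e6
    rw [hD] at hd
    exact hd.2 e6
  -- elements of the span of `G`
  have hGdec : ∀ x ∈ span ℝ G, ∃ c : ℝ, f (x - c • z) = 0 := by
    intro x _
    refine ⟨f x / f z, ?_⟩
    rw [map_sub, map_smul, smul_eq_mul, div_mul_cancel₀ _ hfzz.ne, sub_self]
  have hG0 : ∀ g : Dual ℝ V, g z = 0 → (∀ e ∈ G, f e = 0 → g e = 0) → ∀ x ∈ span ℝ G, g x = 0 := by
    intro g hgz hgG x hx
    obtain ⟨c, hc⟩ := hGdec x hx
    have e1 := k1.2 _ (sub_mem hx (smul_mem _ c hzG)) hc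
    have e2 : span ℝ (G ∩ {e | f e = 0}) ≤ LinearMap.ker g := by
      rw [span_le]
      rintro e ⟨he, h4⟩
      exact hgG e he h4
    have e3 : g (x - c • z) = 0 := e2 e1
    rw [map_sub, map_smul, hgz, smul_zero, sub_zero] at e3
    exact e3
  have hhe : ∀ e ∈ E, 0 ≤ h e * h' e := fun e he => by
    rw [hh]; exact hst f k1 k2 e he
  obtain ⟨q', hq'⟩ : ∃ q', q' = q1 + (q - P q) - p := ⟨_, rfl⟩
  have hqA : q ∈ span ℝ A := hspanA q sp.hq
  have hqD : q - P q ∈ span ℝ D := hPA q hqA
  have hUq : ∀ g : Dual ℝ V, (∀ d ∈ D, g d = 0) → g (q - P q) = 0 := by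
    intro g hg
    have e2 : span ℝ D ≤ LinearMap.ker g := by
      rw [span_le]
      exact hg
    exact e2 hqD
  have hcutA' : ∀ g : Dual ℝ V, Cut (E ∩ {e | h' e = 0}) g → Cut A' g := by
    intro g hg
    rwa [hA']
  have hA'span : ∀ x, h' x = 0 → x ∈ span ℝ A' := by
    intro x hx
    rw [hA']
    exact hcut'.2 x (by rw [hspan]; trivial) hx
  -- the key dichotomy
  have key : ∀ g : Dual ℝ V, g z = 0 → Cut (E ∩ {e | h' e = 0}) g →
      g q' ≠ 0 ∧ (0 < g q' → ∀ e ∈ E, 0 ≤ h' e * g e) := by
    intro g hgz hg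
    replace hg := hcutA' g hg
    by_cases hgp : g p = 0
    · have hgpe : g pe = 0 := by
        rcases hpe' with h3 | h3
        · rw [h3]; exact hgp
        · rw [h3, map_neg, hgp, neg_zero]
      by_cases hgD : ∀ d ∈ D, g d = 0
      · -- the functional lives on `G`
        have hgU : ∀ x ∈ U, g x = 0 := by
          intro x hx
          have e2 : U ≤ LinearMap.ker g := by
            rw [hU, sup_le_iff, span_le, span_le, Set.singleton_subset_iff]
            exact ⟨hgD, hgp⟩
          exact e2 hx
        have hgP : ∀ x, g (P x) = g x := by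
          intro x
          have := hgU _ (hP5 x)
          rw [map_sub] at this
          linarith
        have hpart : ∀ y ∈ span ℝ G, f y = 0 → g y = 0 →
            y ∈ span ℝ ((G ∩ {e | f e = 0}) ∩ {e | g e = 0}) := by
          intro y hy hfy hgy
          have e1 := hg.2 y (hA'span y (by rw [hhG y hy]; exact hfy)) hgy
          have e2 : span ℝ (A' ∩ {e | g e = 0}) ≤
              span ℝ ((G ∩ {e | f e = 0}) ∩ {e | g e = 0}) ⊔ U := by
            rw [span_le]
            rintro e ⟨he, h4⟩
            rcases hA'cases e he with ⟨h3, h5⟩ | h3 | h3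
            · exact mem_sup_left (subset_span ⟨⟨h3, h5⟩, h4⟩)
            · exact mem_sup_right (hDU e (subset_span h3))
            · rw [h3]; exact mem_sup_right hpeU
          have e3 := e2 e1
          rw [mem_sup] at e3
          obtain ⟨y1, hy1, y2, hy2, hyy⟩ := e3
          have e4 : y1 ∈ span ℝ G :=
            span_mono (fun e he => he.1.1) hy1
          have e5 : y2 ∈ span ℝ G := by
            have : y2 = y - y1 := by rw [← hyy, add_sub_cancel_left]
            rw [this]
            exact sub_mem hy e4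
          have e6 : y2 = 0 := disjoint_def.1 hcompl.disjoint y2 e5 hy2
          rw [e6, add_zero] at hyy
          rwa [← hyy]
        have hcG : Cut G g := by
          refine ⟨?_, fun x hx h0 => ?_⟩
          · obtain ⟨e, he, h3⟩ := hg.1
            rcases hA'cases e he with ⟨h4, -⟩ | h4 | h4
            · exact ⟨e, h4, h3⟩
            · exact absurd (hgD e h4) h3
            · rw [h4] at h3
              exact absurd hgpe h3
          · obtain ⟨c, hc⟩ := hGdec x hx
            have e1 := hpart (x - c • z) (sub_mem hx (smul_mem _ c hzG)) hc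
              (by rw [map_sub, map_smul, hgz, smul_zero, sub_zero]; exact h0)
            have e2 : x - c • z ∈ span ℝ (G ∩ {e | g e = 0}) := by
              have hs : ((G ∩ {e | f e = 0}) ∩ {e | g e = 0}) ⊆ G ∩ {e | g e = 0} :=
                fun e he => ⟨he.1.1, he.2⟩
              exact span_mono hs e1
            have e3 : z ∈ span ℝ (G ∩ {e | g e = 0}) := by
              rcases hz with h4 | h4
              · exact subset_span ⟨h4, hgz⟩
              · have : -z ∈ span ℝ (G ∩ {e | g e = 0}) :=
                  subset_span ⟨h4, by show g (-z) = 0; rw [map_neg, hgz, neg_zero]⟩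
                have := neg_mem this
                rwa [neg_neg] at this
            have := add_mem e2 (smul_mem _ c e3)
            rwa [sub_add_cancel] at this
        have hcGf : Cut (G ∩ {e | f e = 0}) g := by
          refine ⟨?_, fun x hx h0 => ?_⟩
          · obtain ⟨e, he, h3⟩ := hg.1
            rcases hA'cases e he with ⟨h4, h5⟩ | h4 | h4
            · exact ⟨e, ⟨h4, h5⟩, h3⟩
            · exact absurd (hgD e h4) h3
            · rw [h4] at h3
              exact absurd hgpe h3
          · have e1 : x ∈ span ℝ G := span_mono Set.inter_subset_left hx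
            have e2 : span ℝ (G ∩ {e | f e = 0}) ≤ LinearMap.ker f := by
              rw [span_le]
              exact fun e he => he.2
            exact hpart x e1 (e2 hx) h0
        have e0 : g q' = g q1 := by
          rw [hq', map_sub, map_add, hUq g hgD, hgp, add_zero, sub_zero]
        have eq1 : g q1 = g q := by
          rw [hq1, map_sub, map_smul, hgz, smul_zero, sub_zero, hgP]
        refine ⟨?_, fun hpos e he => ?_⟩
        · rw [e0]
          exact sf.gen g hgz hcGf
        · rw [e0] at hpos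
          by_cases h3 : h e = 0
          · have h4 := hmemA e he h3
            by_cases h5 : e ∈ G
            · rw [hhG e (hGs e h5)]
              exact sf.st g hgz hcGf hpos e h5
            · have h6 : e ∈ D := by rw [hD]; exact ⟨h4, h5⟩
              rw [hgD e h6, mul_zero]
          · have e1 : 0 ≤ h e * g (P e) := hst g hcG (by rw [hgP, ← eq1]; exact hpos) e he
            rw [hgP] at e1
            have e2 := hhe e he
            have e3 : 0 < h e * h e := mul_self_pos.2 h3
            have e4 : 0 ≤ (h e * h e) * (h' e * g e) := by nlinarith [mul_nonneg e1 e2]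
            exact nonneg_of_mul_nonneg_right e4 e3
      · -- the coordinate of an element of `D`
        push Not at hgD
        obtain ⟨d, hd, hgd⟩ := hgD
        have hzero : ∀ x ∈ A', x ≠ d → g x = 0 := by
          intro x hx hxd
          by_contra hgx
          have e0 : h' x = 0 := by rw [hA'] at hx; exact hx.2
          have e0' : h' d = 0 := hhU d (hDU d (subset_span hd))
          have e1 := hg.2 (x - (g x / g d) • d) (hA'span _ (by
            rw [map_sub, map_smul, e0, e0', smul_zero, sub_zero]))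
            (by rw [map_sub, map_smul, smul_eq_mul, div_mul_cancel₀ _ hgd, sub_self])
          have e2 : x - (g x / g d) • d ∈ span ℝ (A' \ {d}) := by
            refine span_mono ?_ e1
            rintro e ⟨he, h4⟩
            refine ⟨he, ?_⟩
            rintro rfl
            exact hgd h4
          have e3 : x ∈ span ℝ (A' \ {d}) := subset_span ⟨hx, hxd⟩
          have e4 : (g x / g d) • d ∈ span ℝ (A' \ {d}) := by
            have := sub_mem e3 e2
            rwa [sub_sub_cancel] at this
          have e5 := (smul_mem_iff _ (div_ne_zero hgx hgd)).1 e4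
          exact hDcol d hd e5
        have hdG : ∀ e ∈ G, e ≠ d := by
          intro e he h3
          rw [hD] at hd
          exact hd.2 (h3 ▸ he)
        have hgG : ∀ x ∈ span ℝ G, g x = 0 :=
          hG0 g hgz fun e he h3 => hzero e (hGA' e he h3) (hdG e he)
        have hcA : Cut A g := by
          refine ⟨⟨d, hDA hd, hgd⟩, fun x hx h0 => ?_⟩
          have e1 : span ℝ A ≤ span ℝ (A ∩ {e | g e = 0}) ⊔ span ℝ {d} := by
            rw [span_le]
            intro e he
            by_cases h3 : e = d
            · rw [h3]; exact mem_sup_right (mem_span_singleton_self d)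
            · refine mem_sup_left (subset_span ⟨he, ?_⟩)
              by_cases h4 : e ∈ G
              · exact hgG e (hGs e h4)
              · have h5 : e ∈ D := by rw [hD]; exact ⟨he, h4⟩
                exact hzero e (hDA' h5) h3
          have e2 := e1 hx
          rw [mem_sup] at e2
          obtain ⟨y, hy, w, hw, hyw⟩ := e2
          rw [mem_span_singleton] at hw
          obtain ⟨c, rfl⟩ := hw
          have e3 : span ℝ (A ∩ {e | g e = 0}) ≤ LinearMap.ker g := by
            rw [span_le]
            exact fun e he => he.2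
          have e4 : g y = 0 := e3 hy
          rw [← hyw, map_add, e4, zero_add, map_smul, smul_eq_mul] at h0
          rw [(mul_eq_zero.1 h0).resolve_right hgd, zero_smul, add_zero] at hyw
          rwa [← hyw]
        have hcA2 := hcA
        rw [hA] at hcA2
        have e0 : g q' = g q := by
          rw [hq', map_sub, map_add, map_sub, hgG q1 hq1G, hgG _ (hP1 q), hgp]
          ring
        refine ⟨by rw [e0]; exact sp.gen g hgp hcA2, fun hpos e he => ?_⟩
        rw [e0] at hpos
        have e1 := sp.st g hgp hcA2 hpos e he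
        have e2 := hhe e he
        by_cases h3 : h e = 0
        · have h4 := hmemA e he h3
          by_cases h5 : e ∈ G
          · rw [hgG e (hGs e h5), mul_zero]
          · have h6 : e ∈ D := by rw [hD]; exact ⟨h4, h5⟩
            rw [hhU e (hDU e (subset_span h6)), zero_mul]
        · have e3 : 0 < h e * h e := mul_self_pos.2 h3
          have e4 : 0 ≤ (h e * h e) * (h' e * g e) := by nlinarith [mul_nonneg e1 e2]
          exact nonneg_of_mul_nonneg_right e4 e3
    · -- the coordinate of `p`
      have hzero : ∀ x ∈ A', x ≠ pe → g x = 0 := by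
        intro x hx hxp
        have e0 : h' x = 0 := by rw [hA'] at hx; exact hx.2
        have e0' : h' p = 0 := hhU p hpU
        have e1 := hg.2 (x - (g x / g p) • p) (hA'span _ (by
          rw [map_sub, map_smul, e0, e0', smul_zero, sub_zero]))
          (by rw [map_sub, map_smul, smul_eq_mul, div_mul_cancel₀ _ hgp, sub_self])
        have e2 : span ℝ (A' ∩ {e | g e = 0}) ≤ LinearMap.ker h := by
          rw [span_le]
          rintro e ⟨he, h4⟩
          rcases hA'cases e he with ⟨h3, -⟩ | h3 | h3
          · exact hA0 e (hGA h3)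
          · exact hA0 e (hDA h3)
          · exfalso
            apply hgp
            rcases hpe' with h5 | h5
            · rw [← h5, ← h3]; exact h4
            · have h6 : g (-p) = 0 := by rw [← h5, ← h3]; exact h4
              rw [map_neg] at h6
              exact neg_eq_zero.1 h6
        have e3 : h (x - (g x / g p) • p) = 0 := e2 e1
        have e4 : h x = 0 := by
          rcases hA'cases x hx with ⟨h3, -⟩ | h3 | h3
          · exact hA0 x (hGA h3)
          · exact hA0 x (hDA h3)
          · exact absurd h3 hxp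
        rw [map_sub, e4, zero_sub, map_smul, smul_eq_mul, neg_eq_zero] at e3
        have e5 := (mul_eq_zero.1 e3).resolve_right sp.hp.ne
        exact (div_eq_zero_iff.1 e5).resolve_right hgp
      have hneD : ∀ e ∈ A, e ≠ pe := fun e he h3 => hpe0 (h3 ▸ hA0 e he)
      have hgG : ∀ x ∈ span ℝ G, g x = 0 :=
        hG0 g hgz fun e he h3 => hzero e (hGA' e he h3) (hneD e (hGA he))
      have hgD : ∀ d ∈ D, g d = 0 := fun d hd => hzero d (hDA' hd) (hneD d (hDA hd))
      have hgA : ∀ x ∈ span ℝ A, g x = 0 := by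
        intro x hx
        have e2 : span ℝ A ≤ LinearMap.ker g := by
          rw [span_le]
          intro e he
          by_cases h4 : e ∈ G
          · exact hgG e (hGs e h4)
          · exact hgD e (by rw [hD]; exact ⟨he, h4⟩)
        exact e2 hx
      have e0 : g q' = -g p := by
        rw [hq', map_sub, map_add, hgG q1 hq1G, hUq g hgD]
        ring
      refine ⟨by rw [e0]; exact neg_ne_zero.2 hgp, fun hpos e he => ?_⟩
      rw [e0] at hpos
      have e1 : g e = (g p / h p) * h e := by
        have e2 : g (e - (h e / h p) • p) = 0 := hgA _ (hspanA _ (by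
          rw [map_sub, map_smul, smul_eq_mul, div_mul_cancel₀ _ sp.hp.ne, sub_self]))
        rw [map_sub, map_smul, smul_eq_mul, sub_eq_zero] at e2
        rw [e2]
        ring
      have e2 := hhe e he
      have e3 : 0 ≤ g p / h p := div_nonneg_of_nonpos (by linarith) sp.hp.le
      rw [e1]
      have : h' e * (g p / h p * h e) = (g p / h p) * (h e * h' e) := by ring
      rw [this]
      exact mul_nonneg e3 e2
  refine ⟨z, h', q', ⟨hzE, hcut', ?_, ?_, fun g hgz hg => (key g hgz hg).1,
    fun g hgz hg hpos => (key g hgz hg).2 hpos⟩, ?_⟩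
  · rw [hhG z hzG]
    exact hfzz
  · have e1 : h' q1 = 0 := by rw [hhG q1 hq1G]; exact sf.hq
    rw [hq', map_sub, map_add, e1, hhU _ (hP5 q), hhU p hpU]
    ring
  · rw [← hA']
    apply Submodule.finrank_lt_finrank_of_lt
    have hsub : NC A' ⊆ G ∩ {e | f e = 0} := by
      rintro e ⟨he, h3⟩
      rcases hA'cases e he with h4 | h4 | h4
      · exact h4
      · exact absurd h3 (hDcol e h4)
      · exfalso
        have e1 : span ℝ (A' \ {e}) ≤ LinearMap.ker h := by
          rw [span_le]
          rintro x ⟨hx, hxe⟩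
          rcases hA'cases x hx with ⟨h5, -⟩ | h5 | h5
          · exact hA0 x (hGA h5)
          · exact hA0 x (hDA h5)
          · exact absurd (h5.trans h4.symm) hxe
        have e2 : h e = 0 := e1 h3
        rw [h4] at e2
        exact hpe0 e2
    refine lt_of_le_of_ne (span_mono fun e he => (hsub he).1) fun heq => ?_
    have e1 : z ∈ span ℝ (NC A') := by rw [heq]; exact hzG
    have e2 : span ℝ (NC A') ≤ LinearMap.ker f := by
      rw [span_le]
      exact fun e he => (hsub he).2
    exact hfzz.ne (e2 e1)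

end Pool.Agent.E8helper49.WW
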